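import Pool.Agent.NSq.Plane

/-!
# Rectangles with ratio of the sides close to 1 in sets of lattice points (MP_b31126_co)

The same counts of complete bipartite configurations as for near-squares (see `NearSquares.lean`), with scales which
grow by a constant factor.
-/

namespace Pool.Agent.Results.MP_b31126_co.AlmostSquares
open Finset Pool.Agent.NSq

/-- **Almost squares.**  There is `c > 0` such that for every `B` there is `C` such that the following
holds for all `0 < ε ≤ 1`.  If a set `A` of lattice points contains no four vertices of an axis-parallel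
rectangle with sides `a, b ≥ B` and `|a - b| ≤ ε min(a, b)`, then
`|A ∩ [-N, N]²| ≤ C N^(2 - c / log (2 / ε))` for all `N ≥ 1`. -/
theorem result : ∃ c : ℝ, 0 < c ∧ ∀ B : ℝ, ∃ C : ℝ, ∀ ε : ℝ, 0 < ε → ε ≤ 1 →
    ∀ A : Set (ℤ × ℤ),
    (¬ ∃ x y a b : ℤ, 0 < a ∧ 0 < b ∧ B ≤ a ∧ B ≤ b ∧ |(a : ℝ) - b| ≤ ε * min (a : ℝ) b ∧
      (x, y) ∈ A ∧ (x + a, y) ∈ A ∧ (x, y + b) ∈ A ∧ (x + a, y + b) ∈ A) →
    ∀ N : ℕ, 1 ≤ N → (Set.ncard {p : ℤ × ℤ | p ∈ A ∧ |p.1| ≤ N ∧ |p.2| ≤ N} : ℝ) ≤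
      C * (N : ℝ) ^ (2 - c / Real.log (2 / ε)) := by
  classical
  obtain ⟨c, hc, hc1, hB⟩ := mass_le_eps
  refine ⟨c, hc, ?_⟩
  intro B
  obtain ⟨C, hC, hm⟩ := hB B
  refine ⟨C * 16, ?_⟩
  intro ε hε hε1 A hA N hN
  have hA' : ¬ HasNear A (fun t => ε * t) B := hA
  have hlog : Real.log 2 ≤ Real.log (2 / ε) := by
    apply Real.log_le_log (by norm_num)
    rw [le_div_iff₀ hε]; linarith
  have hl2 : 0 < Real.log 2 := Real.log_pos (by norm_num)
  set c' : ℝ := c / Real.log (2 / ε) with hc'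
  have hc'0 : 0 ≤ c' := by rw [hc']; exact div_nonneg hc.le (by linarith)
  have hc'1 : c' ≤ 1 := by
    rw [hc', div_le_one (by linarith)]; linarith
  set k := Nat.log 2 N with hk
  have g1 : 2 ^ k ≤ N := Nat.pow_log_le_self 2 (by omega)
  have g2 : N < 2 ^ (k + 1) := Nat.lt_pow_succ_log_self (by norm_num) N
  have h2 := ncard_le_box A g2
  have h3 := (card_box_le A (k + 1)).trans
    (hm ε hε hε1 (ind A (2 ^ (k + 1))) (ind01 A _) (noNear_ind hA' _) (k + 1 + 1))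
  have h4 : ((Set.ncard {p : ℤ × ℤ | p ∈ A ∧ |p.1| ≤ N ∧ |p.2| ≤ N} : ℕ) : ℝ) ≤
      C * 2 ^ ((2 - c') * ((k + 1 + 1 : ℕ) : ℝ)) := by
    refine le_trans ?_ h3
    exact_mod_cast h2
  refine h4.trans ?_
  rw [mul_assoc]
  refine mul_le_mul_of_nonneg_left ?_ hC.le
  have g1' : (2 : ℝ) ^ k ≤ N := by exact_mod_cast g1
  calc (2 : ℝ) ^ ((2 - c') * ((k + 1 + 1 : ℕ) : ℝ)) =
      2 ^ ((2 - c') * 2) * ((2 : ℝ) ^ k) ^ (2 - c') := by
        rw [← Real.rpow_natCast 2 k, ← Real.rpow_mul (by norm_num), ← Real.rpow_add (by norm_num)]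
        congr 1
        push_cast
        ring
    _ ≤ 16 * (N : ℝ) ^ (2 - c') := by
        have q1 : (2 : ℝ) ^ ((2 - c') * 2) ≤ 16 := by
          calc (2 : ℝ) ^ ((2 - c') * 2) ≤ 2 ^ (4 : ℝ) :=
                Real.rpow_le_rpow_of_exponent_le (by norm_num) (by linarith)
            _ = 16 := by norm_num
        have q2 : ((2 : ℝ) ^ k) ^ (2 - c') ≤ (N : ℝ) ^ (2 - c') :=
          Real.rpow_le_rpow (by positivity) g1' (by linarith)
        exact mul_le_mul q1 q2 (by positivity) (by norm_num)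

end Pool.Agent.Results.MP_b31126_co.AlmostSquares
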