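import Pool.Agent.NSq.Plane

/-!
# Near-squares in lattice sets of divergent harmonic weight (MP_b31126_co)

Notes on the proof.  Let `A` be a set without rectangles with sides `a, b ≥ B`, `|a - b| ≤ min(a,b)^θ`.
In a dyadic square one counts complete bipartite configurations: three ordinates in a common cell
of length `2^t` and `n + 1` abscissas in a common cell of length `2^s`, all `3 (n + 1)` points in `A`.
Normalised by the sizes of the cells this count decreases when the cells grow (Jensen), and at the scale of the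
whole square it is at least the power `3 (n + 1)` of the density.  If the scale of the abscissas grows
from below the power `θ` of the scale of the ordinates to above the scale of the ordinates, then
the count drops by the factor `3^(-n)` (nearly): the cells which contain abscissas common to three
rows are, translated by the three ordinates, disjoint.  There are about `log log N / log (1 / θ)`
such scales, because they may grow double exponentially.
-/

namespace Pool.Agent.Results.MP_b31126_co.NearSquares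
open Finset Pool.Agent.NSq
open scoped ENNReal

/-- the weight of a set of lattice points with a power of the logarithm; the origin is omitted.  For
`κ = 1` this is the harmonic weight `S(A)`, see `weight_one`. -/
noncomputable def weight (κ : ℝ) (A : Set (ℤ × ℤ)) : ℝ≥0∞ :=
  open scoped Classical in
  ∑' p : ℤ × ℤ, if p ∈ A ∧ p ≠ (0, 0) then
    ENNReal.ofReal ((Real.log (Real.exp 1 + ((p.1 : ℝ) ^ 2 + (p.2 : ℝ) ^ 2))) ^ (κ - 1) /
      ((p.1 : ℝ) ^ 2 + (p.2 : ℝ) ^ 2)) else 0

open scoped Classical in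
/-- the case `κ = 1` -/
theorem weight_one (A : Set (ℤ × ℤ)) : weight 1 A = ∑' p : ℤ × ℤ, if p ∈ A ∧ p ≠ (0, 0) then
    ENNReal.ofReal (1 / ((p.1 : ℝ) ^ 2 + (p.2 : ℝ) ^ 2)) else 0 := by
  unfold weight
  simp

section
open scoped Classical

/-- two-sided bound for the logarithm -/
theorem log_bounds {k : ℕ} {t : ℝ} (h1 : (4 : ℝ) ^ k ≤ t) (h2 : t ≤ 8 * 4 ^ k) :
    ((k : ℝ) + 3) / 3 ≤ Real.log (Real.exp 1 + t) ∧
      Real.log (Real.exp 1 + t) ≤ 2 * ((k : ℝ) + 3) := by
  have h4 : (0 : ℝ) < 4 ^ k := by positivity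
  have he : 0 < Real.exp 1 := Real.exp_pos 1
  have hl2 := Real.log_two_gt_d9
  have hl2' := Real.log_two_lt_d9
  have hlog4 : Real.log 4 = 2 * Real.log 2 := by
    rw [show (4 : ℝ) = 2 ^ 2 by norm_num, Real.log_pow]; push_cast; ring
  constructor
  · rcases Nat.eq_zero_or_pos k with hk | hk
    · have : Real.log (Real.exp 1) ≤ Real.log (Real.exp 1 + t) :=
        Real.log_le_log he (by linarith)
      rw [Real.log_exp] at this
      rw [hk]
      norm_num
      exact this
    · have h5 : Real.log (4 ^ k) ≤ Real.log (Real.exp 1 + t) :=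
        Real.log_le_log h4 (by linarith)
      rw [Real.log_pow, hlog4] at h5
      have hk' : (1 : ℝ) ≤ k := by exact_mod_cast hk
      nlinarith
  · have h5 : Real.exp 1 + t ≤ 4 ^ (k + 3) := by
      have h6 : Real.exp 1 ≤ 3 := by
        have := Real.exp_one_lt_d9; linarith
      have h7 : (1 : ℝ) ≤ 4 ^ k := one_le_pow₀ (by norm_num)
      have h8 : (4 : ℝ) ^ (k + 3) = 64 * 4 ^ k := by ring
      rw [h8]; linarith
    have h6 := Real.log_le_log (by linarith) h5
    rw [Real.log_pow, hlog4] at h6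
    push_cast at h6
    have hk' : (0 : ℝ) ≤ k := Nat.cast_nonneg k
    nlinarith

theorem log_pow_le (κ : ℝ) : ∃ C : ℝ, 0 < C ∧ ∀ (k : ℕ) (t : ℝ), (4 : ℝ) ^ k ≤ t → t ≤ 8 * 4 ^ k →
    (Real.log (Real.exp 1 + t)) ^ (κ - 1) ≤ C * ((k : ℝ) + 3) ^ (κ - 1) := by
  rcases le_total 1 κ with hκ | hκ
  · refine ⟨2 ^ (κ - 1), by positivity, fun k t h1 h2 => ?_⟩
    obtain ⟨g1, g2⟩ := log_bounds h1 h2
    have hk : (0 : ℝ) ≤ k := Nat.cast_nonneg k
    rw [← Real.mul_rpow (by norm_num) (by linarith)]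
    exact Real.rpow_le_rpow (le_trans (by positivity) g1) g2 (by linarith)
  · refine ⟨(1 / 3) ^ (κ - 1), by positivity, fun k t h1 h2 => ?_⟩
    obtain ⟨g1, g2⟩ := log_bounds h1 h2
    have hk : (0 : ℝ) ≤ k := Nat.cast_nonneg k
    rw [← Real.mul_rpow (by norm_num) (by linarith)]
    exact Real.rpow_le_rpow_of_nonpos (by positivity) (by linarith) (by linarith)

theorem weight_ne_top {θ κ κ' B : ℝ} (h0 : 0 < θ) (h1 : θ < 1) (hκ : 0 < κ) (hκ' : κ < κ')
    (h : 1 < 3 * θ ^ (3 * κ')) {A : Set (ℤ × ℤ)} (hA : ¬ HasNear A (fun t => t ^ θ) B) :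
    weight κ A ≠ ∞ := by
  obtain ⟨C, hC, hb⟩ := card_box (B := B) h0 h1 (hκ.trans hκ') h
  obtain ⟨D, hD, hlog⟩ := log_pow_le κ
  have hle : weight κ A ≤ ∑' k : ℕ, ENNReal.ofReal (16 * C * D * ((k : ℝ) + 3) ^ (κ - κ' - 1)) := by
    calc weight κ A ≤ ∑' p : ℤ × ℤ, ∑' k : ℕ, (if p ∈ (box (k + 1)).filter (· ∈ A) then
          ENNReal.ofReal (D * ((k : ℝ) + 3) ^ (κ - 1) / 4 ^ k) else 0) := by
          unfold weight
          refine ENNReal.tsum_le_tsum fun p => ?_
          by_cases hp : p ∈ A ∧ p ≠ (0, 0)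
          · rw [if_pos hp]
            set m := max p.1.natAbs p.2.natAbs with hm
            have hm0 : m ≠ 0 := by
              intro h9
              apply hp.2
              have h10 : p.1.natAbs = 0 := by omega
              have h11 : p.2.natAbs = 0 := by omega
              exact Prod.ext (Int.natAbs_eq_zero.1 h10) (Int.natAbs_eq_zero.1 h11)
            set k := Nat.log 2 m with hk
            have g1 : 2 ^ k ≤ m := Nat.pow_log_le_self 2 hm0
            have g2 : m < 2 ^ (k + 1) := Nat.lt_pow_succ_log_self (by norm_num) m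
            have g3 : |p.1| < 2 ^ (k + 1) := by
              have : p.1.natAbs < 2 ^ (k + 1) := lt_of_le_of_lt (le_max_left _ _) g2
              rw [Int.abs_eq_natAbs]; exact_mod_cast this
            have g4 : |p.2| < 2 ^ (k + 1) := by
              have : p.2.natAbs < 2 ^ (k + 1) := lt_of_le_of_lt (le_max_right _ _) g2
              rw [Int.abs_eq_natAbs]; exact_mod_cast this
            have e4 : (4 : ℝ) ^ k = (2 ^ k) ^ 2 := by
              rw [show (4 : ℝ) = 2 ^ 2 by norm_num, ← pow_mul, ← pow_mul, mul_comm]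
            have g5 : (4 : ℝ) ^ k ≤ (p.1 : ℝ) ^ 2 + (p.2 : ℝ) ^ 2 := by
              have g1' : (2 : ℝ) ^ k ≤ m := by exact_mod_cast g1
              have g6 : (m : ℝ) ^ 2 ≤ (p.1 : ℝ) ^ 2 + (p.2 : ℝ) ^ 2 := by
                have q1 : ((p.1.natAbs : ℕ) : ℝ) ^ 2 = (p.1 : ℝ) ^ 2 := by
                  rw [Nat.cast_natAbs]; push_cast; rw [sq_abs]
                have q2 : ((p.2.natAbs : ℕ) : ℝ) ^ 2 = (p.2 : ℝ) ^ 2 := by
                  rw [Nat.cast_natAbs]; push_cast; rw [sq_abs]
                rcases max_cases p.1.natAbs p.2.natAbs with ⟨h9, -⟩ | ⟨h9, -⟩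
                · rw [hm, h9, q1]; nlinarith [sq_nonneg (p.2 : ℝ)]
                · rw [hm, h9, q2]; nlinarith [sq_nonneg (p.1 : ℝ)]
              rw [e4]
              exact (pow_le_pow_left₀ (by positivity) g1' 2).trans g6
            have g7 : (p.1 : ℝ) ^ 2 + (p.2 : ℝ) ^ 2 ≤ 8 * 4 ^ k := by
              have q1 : |(p.1 : ℝ)| ≤ 2 ^ (k + 1) := by exact_mod_cast g3.le
              have q2 : |(p.2 : ℝ)| ≤ 2 ^ (k + 1) := by exact_mod_cast g4.le
              have q3 := pow_le_pow_left₀ (abs_nonneg _) q1 2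
              have q4 := pow_le_pow_left₀ (abs_nonneg _) q2 2
              rw [sq_abs] at q3 q4
              have q5 : ((2 : ℝ) ^ (k + 1)) ^ 2 = 4 * 4 ^ k := by rw [e4]; ring
              rw [q5] at q3 q4
              linarith
            refine le_trans ?_ (ENNReal.le_tsum k)
            rw [if_pos (mem_filter.2 ⟨mem_box_of_le g3 g4, hp.1⟩)]
            refine ENNReal.ofReal_le_ofReal (div_le_div₀ (by positivity) (hlog k _ g5 g7)
              (by positivity) g5)
          · rw [if_neg hp]; exact bot_le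
      _ = ∑' k : ℕ, ∑' p : ℤ × ℤ, (if p ∈ (box (k + 1)).filter (· ∈ A) then
          ENNReal.ofReal (D * ((k : ℝ) + 3) ^ (κ - 1) / 4 ^ k) else 0) := ENNReal.tsum_comm
      _ ≤ ∑' k : ℕ, ENNReal.ofReal (16 * C * D * ((k : ℝ) + 3) ^ (κ - κ' - 1)) := by
          refine ENNReal.tsum_le_tsum fun k => ?_
          rw [tsum_eq_sum (s := (box (k + 1)).filter (· ∈ A)) (fun p hp => if_neg hp)]
          rw [sum_congr rfl (fun p hp => if_pos hp), sum_const, nsmul_eq_mul,
            ← ENNReal.ofReal_natCast, ← ENNReal.ofReal_mul (Nat.cast_nonneg _)]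
          refine ENNReal.ofReal_le_ofReal ?_
          have h2 := hb A hA (k + 1)
          push_cast at h2
          rw [show (k : ℝ) + 1 + 2 = k + 3 by ring] at h2
          have hk3 : (0 : ℝ) < (k : ℝ) + 3 := by positivity
          have e5 : ((k : ℝ) + 3) ^ (κ - κ' - 1) =
              ((k : ℝ) + 3) ^ (-κ') * ((k : ℝ) + 3) ^ (κ - 1) := by
            rw [← Real.rpow_add hk3]; congr 1; ring
          calc ((((box (k + 1)).filter (· ∈ A)).card : ℕ) : ℝ) *
              (D * ((k : ℝ) + 3) ^ (κ - 1) / 4 ^ k) ≤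
              (C * ((k : ℝ) + 3) ^ (-κ') * 4 ^ (k + 1 + 1)) *
                (D * ((k : ℝ) + 3) ^ (κ - 1) / 4 ^ k) :=
                mul_le_mul_of_nonneg_right h2 (by positivity)
            _ = 16 * C * D * ((k : ℝ) + 3) ^ (κ - κ' - 1) := by
                rw [e5]
                have h4 : (4 : ℝ) ^ k ≠ 0 := by positivity
                field_simp
                ring
  refine ne_top_of_le_ne_top ?_ hle
  refine Summable.tsum_ofReal_ne_top (Summable.mul_left _ ?_)
  have h3 : Summable fun k : ℕ => (k : ℝ) ^ (κ - κ' - 1) :=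
    Real.summable_nat_rpow.2 (by linarith)
  have h4 := (summable_nat_add_iff 3).2 h3
  refine h4.congr fun k => ?_
  push_cast
  rfl

end

open Filter Topology in
theorem near_of_weight {κ : ℝ} (hκ : 0 < κ) {A : Set (ℤ × ℤ)} (hA : weight κ A = ∞) {θ : ℝ}
    (h0 : 0 < θ) (hθ : 1 < 3 * θ ^ (3 * κ)) (B : ℝ) : HasNear A (fun t => t ^ θ) B := by
  have key : ∀ θ : ℝ, 0 < θ → 1 < 3 * θ ^ (3 * κ) → θ < 1 → ∀ B : ℝ,
      HasNear A (fun t => t ^ θ) B := by
    intro θ h0 hθ h1 B
    by_contra hN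
    have ht : Tendsto (fun κ' : ℝ => 3 * θ ^ (3 * κ')) (𝓝 κ) (𝓝 (3 * θ ^ (3 * κ))) := by
      refine Tendsto.const_mul _ ?_
      exact (continuous_const.rpow (continuous_const.mul continuous_id)
        (fun _ => Or.inl h0.ne')).tendsto κ
    have h2 := ((ht.eventually (lt_mem_nhds hθ)).filter_mono nhdsWithin_le_nhds).and
      (self_mem_nhdsWithin (s := Set.Ioi κ))
    obtain ⟨κ', hκ', hκ1⟩ := h2.exists
    exact weight_ne_top h0 h1 hκ hκ1 hκ' hN hA
  by_cases h1 : θ < 1
  · exact key θ h0 hθ h1 B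
  · push Not at h1
    set θ' : ℝ := (2 / 3) ^ (1 / (3 * κ)) with hθ'
    have h3 : 0 < θ' := by rw [hθ']; positivity
    have h4 : θ' < 1 := Real.rpow_lt_one (by norm_num) (by norm_num) (by positivity)
    have h5 : θ' ^ (3 * κ) = 2 / 3 := by
      rw [hθ', ← Real.rpow_mul (by norm_num), one_div, inv_mul_cancel₀ (by positivity),
        Real.rpow_one]
    exact (key θ' h3 (by rw [h5]; norm_num) h4 B).mono (by linarith) le_rfl

/-- **Near-squares.**  Let `κ > 0`, `θ > 0` and `3 θ^(3κ) > 1` (for `κ = 1` this means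
`θ > 3^(-1/3) = 0.693…`).  Let `A` be a set of lattice points such that the sum of
`(log (e + x² + y²))^(κ - 1) / (x² + y²)` over `(x, y) ∈ A`, `(x, y) ≠ (0, 0)`, diverges (for `κ = 1`:
`S(A) = ∞`).  Then for every `B` the set `A` contains the four vertices of an axis-parallel
rectangle with sides `a, b ≥ B` and `|a - b| ≤ min(a, b)^θ`. -/
theorem result (κ θ : ℝ) (hκ : 0 < κ) (hθ : 0 < θ) (h : 1 < 3 * θ ^ (3 * κ))
    (A : Set (ℤ × ℤ)) (hA : weight κ A = ∞) (B : ℝ) :
    ∃ x y a b : ℤ, 0 < a ∧ 0 < b ∧ B ≤ a ∧ B ≤ b ∧ |(a : ℝ) - b| ≤ (min (a : ℝ) b) ^ θ ∧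
      (x, y) ∈ A ∧ (x + a, y) ∈ A ∧ (x, y + b) ∈ A ∧ (x + a, y + b) ∈ A :=
  near_of_weight hκ hA hθ h B

end Pool.Agent.Results.MP_b31126_co.NearSquares
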